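import Mathlib

set_option autoImplicit false

/-!
Orienting mixed graphs: no constant fraction of the weighted reachability can be guaranteed.
The counterexamples are butterfly networks.
-/

namespace Pool.Agent.Results.MP_408802_co.Butterfly

open Finset

/-- A mixed graph on the vertex set `V`: a multiset of edges (unordered pairs of distinct
vertices) and a multiset of arcs (ordered pairs of distinct vertices). -/
structure MixedGraph (V : Type) where
  edges : Multiset (Sym2 V)
  arcs : Multiset (V × V)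
  edges_ne : ∀ e ∈ edges, ¬ e.IsDiag
  arcs_ne : ∀ a ∈ arcs, a.1 ≠ a.2

/-- One step: along an arc forwards or along an edge in either direction. -/
def MixedGraph.Step {V : Type} (G : MixedGraph V) (u v : V) : Prop :=
  (u, v) ∈ G.arcs ∨ s(u, v) ∈ G.edges

/-- `v` is reachable from `u`. -/
def MixedGraph.Reach {V : Type} (G : MixedGraph V) (u v : V) : Prop :=
  Relation.ReflTransGen G.Step u v

/-- `H` is an orientation of `G`: it has no edges, and its arcs are the arcs of `G` together
with exactly one of the arcs `(u, v)`, `(v, u)` for every edge `{u, v}` (with multiplicity). -/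
def IsOrientation {V : Type} (G H : MixedGraph V) : Prop :=
  H.edges = 0 ∧ ∃ O : Multiset (V × V), O.map (fun a => s(a.1, a.2)) = G.edges ∧
    H.arcs = G.arcs + O

open Classical in
/-- The contribution `w(u) w(v) κ_G(u, v)` of the ordered pair `(u, v)` of distinct vertices
(and `0` when `u = v`). -/
noncomputable def pairTerm {V : Type} (G : MixedGraph V) (w : V → ℕ) (u v : V) : ℕ :=
  if u ≠ v ∧ G.Reach u v then w u * w v else 0

/-- The weighted reachability `R(G, w)`. -/
noncomputable def R {V : Type} [Fintype V] (G : MixedGraph V) (w : V → ℕ) : ℕ :=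
  2 * ∑ v, (w v).choose 2 + ∑ u, ∑ v, pairTerm G w u v

theorem pairTerm_pos {V : Type} (G : MixedGraph V) (w : V → ℕ) {u v : V} (h : u ≠ v ∧ G.Reach u v) :
    pairTerm G w u v = w u * w v := by
  unfold pairTerm
  rw [if_pos h]

theorem pairTerm_neg {V : Type} (G : MixedGraph V) (w : V → ℕ) {u v : V} (h : ¬ (u ≠ v ∧ G.Reach u v)) :
    pairTerm G w u v = 0 := by
  unfold pairTerm
  rw [if_neg h]

/-! ### The butterfly network -/

/-- the vertices: a level and a bit string -/
abbrev Vt (k : ℕ) : Type := Fin (k + 1) × (Fin k → Bool)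

/-- flip one bit -/
def flip {k : ℕ} (l : Fin k) (b : Fin k → Bool) : Fin k → Bool := Function.update b l (!(b l))

theorem flip_flip {k : ℕ} (l : Fin k) (b : Fin k → Bool) : flip l (flip l b) = b := by
  funext i
  unfold flip
  by_cases h : i = l
  · subst h; simp
  · simp [h]

theorem flip_ne {k : ℕ} (l : Fin k) (b : Fin k → Bool) : flip l b ≠ b := by
  intro h
  have h1 := congrFun h l
  unfold flip at h1
  simp at h1

/-- the edges of the butterfly -/
def bEdges (k : ℕ) : Finset (Sym2 (Vt k)) :=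
  (univ : Finset (Fin k × (Fin k → Bool))).image
    (fun p => s(((p.1.castSucc, p.2) : Vt k), ((p.1.castSucc, flip p.1 p.2) : Vt k)))

/-- the arcs of the butterfly -/
def bArcs (k : ℕ) : Finset (Vt k × Vt k) :=
  (univ : Finset (Fin k × (Fin k → Bool))).image
    (fun p => (((p.1.castSucc, p.2) : Vt k), ((p.1.succ, p.2) : Vt k)))

theorem mem_bEdges {k : ℕ} (e : Sym2 (Vt k)) : e ∈ (bEdges k).val ↔ ∃ (l : Fin k) (b : Fin k → Bool),
    s(((l.castSucc, b) : Vt k), ((l.castSucc, flip l b) : Vt k)) = e := by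
  rw [Finset.mem_val, bEdges, Finset.mem_image]
  constructor
  · rintro ⟨p, _, hp⟩; exact ⟨p.1, p.2, hp⟩
  · rintro ⟨l, b, h⟩; exact ⟨(l, b), mem_univ _, h⟩

theorem mem_bArcs {k : ℕ} (e : Vt k × Vt k) : e ∈ (bArcs k).val ↔ ∃ (l : Fin k) (b : Fin k → Bool),
    (((l.castSucc, b) : Vt k), ((l.succ, b) : Vt k)) = e := by
  rw [Finset.mem_val, bArcs, Finset.mem_image]
  constructor
  · rintro ⟨p, _, hp⟩; exact ⟨p.1, p.2, hp⟩
  · rintro ⟨l, b, h⟩; exact ⟨(l, b), mem_univ _, h⟩

/-- the butterfly network of dimension `k` -/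
def butterfly (k : ℕ) : MixedGraph (Vt k) where
  edges := (bEdges k).val
  arcs := (bArcs k).val
  edges_ne := by
    intro e he
    obtain ⟨l, b, rfl⟩ := (mem_bEdges e).1 he
    rw [Sym2.mk_isDiag_iff]
    intro h
    exact flip_ne l b (congrArg Prod.snd h).symm
  arcs_ne := by
    intro e he
    obtain ⟨l, b, rfl⟩ := (mem_bArcs e).1 he
    intro h
    have h1 : l.castSucc = l.succ := congrArg Prod.fst h
    have h2 := congrArg Fin.val h1
    simp at h2

/-- the first `l` bits come from `c`, the others from `b` -/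
def mix {k : ℕ} (b c : Fin k → Bool) (l : ℕ) : Fin k → Bool := fun i => if (i : ℕ) < l then c i else b i

theorem mix_succ {k : ℕ} (b c : Fin k → Bool) (l : Fin k) :
    mix b c (l + 1) = mix b c l ∨ mix b c (l + 1) = flip l (mix b c l) := by
  by_cases h : b l = c l
  · left
    funext i
    unfold mix
    by_cases h1 : (i : ℕ) < l
    · simp [h1, Nat.lt_succ_of_lt h1]
    · by_cases h2 : (i : ℕ) = l
      · have h3 : i = l := Fin.ext h2
        subst h3
        simp [h]
      · have h3 : ¬ (i : ℕ) < l + 1 := by omega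
        simp [h1, h3]
  · right
    funext i
    unfold mix flip
    by_cases h2 : i = l
    · subst h2
      simp only [Function.update_self, lt_irrefl, if_false, Nat.lt_succ_self, if_true]
      revert h
      cases b i <;> cases c i <;> simp
    · rw [Function.update_of_ne h2]
      have h4 : (i : ℕ) ≠ l := fun h => h2 (Fin.ext h)
      by_cases h1 : (i : ℕ) < l
      · simp [h1, Nat.lt_succ_of_lt h1]
      · have h3 : ¬ (i : ℕ) < l + 1 := by omega
        simp [h1, h3]

theorem reach_mix {k : ℕ} (b c : Fin k → Bool) : ∀ (l : ℕ) (hl : l < k + 1),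
    (butterfly k).Reach (0, b) (⟨l, hl⟩, mix b c l) := by
  intro l
  induction l with
  | zero =>
    intro hl
    have : mix b c 0 = b := by funext i; simp [mix]
    rw [this]
    exact Relation.ReflTransGen.refl
  | succ l ih =>
    intro hl
    have hl' : l < k := by omega
    have h1 := ih (by omega)
    have harc : ∀ d : Fin k → Bool, (butterfly k).Step (⟨l, by omega⟩, d) (⟨l + 1, hl⟩, d) := by
      intro d
      left
      exact (mem_bArcs _).2 ⟨⟨l, hl'⟩, d, rfl⟩
    rcases mix_succ b c ⟨l, hl'⟩ with h2 | h2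
    · have h3 : mix b c (l + 1) = mix b c l := h2
      rw [h3]
      exact h1.tail (harc _)
    · have h3 : mix b c (l + 1) = flip ⟨l, hl'⟩ (mix b c l) := h2
      rw [h3]
      refine Relation.ReflTransGen.tail (b := ((⟨l, by omega⟩, flip ⟨l, hl'⟩ (mix b c l)) : Vt k)) ?_ (harc _)
      refine h1.tail ?_
      right
      exact (mem_bEdges _).2 ⟨⟨l, hl'⟩, mix b c l, rfl⟩

theorem reach_all {k : ℕ} (b c : Fin k → Bool) : (butterfly k).Reach (0, b) (Fin.last k, c) := by
  have h := reach_mix b c k (Nat.lt_succ_self k)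
  have h1 : mix b c k = c := by funext i; simp [mix, i.isLt]
  rw [h1] at h
  exact h

/-- the weight function: one on the first and the last level -/
def wt (k : ℕ) (u : Vt k) : ℕ := if u.1 = 0 ∨ u.1 = Fin.last k then 1 else 0

theorem R_lower {k : ℕ} (hk : 0 < k) : 4 ^ k ≤ R (butterfly k) (wt k) := by
  classical
  have h0 : (0 : Fin (k + 1)) ≠ Fin.last k := by
    intro h
    have := congrArg Fin.val h
    simp at this
    omega
  unfold R
  have h1 : (4 : ℕ) ^ k = ∑ b : Fin k → Bool, ∑ c : Fin k → Bool, 1 := by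
    simp only [sum_const, card_univ, Fintype.card_fun, Fintype.card_bool, Fintype.card_fin, smul_eq_mul,
      mul_one]
    rw [← mul_pow]
    norm_num
  rw [h1]
  refine le_trans ?_ (Nat.le_add_left _ _)
  rw [Fintype.sum_prod_type]
  refine le_trans ?_ (Finset.single_le_sum (f := fun i : Fin (k + 1) => ∑ b : Fin k → Bool, ∑ v : Vt k,
    pairTerm (butterfly k) (wt k) (i, b) v) (fun i _ => Nat.zero_le _) (mem_univ 0))
  apply Finset.sum_le_sum
  intro b _
  rw [Fintype.sum_prod_type]
  refine le_trans ?_ (Finset.single_le_sum (f := fun i : Fin (k + 1) => ∑ c : Fin k → Bool,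
    pairTerm (butterfly k) (wt k) (0, b) (i, c)) (fun i _ => Nat.zero_le _) (mem_univ (Fin.last k)))
  apply Finset.sum_le_sum
  intro c _
  have h2 : ((0, b) : Vt k) ≠ (Fin.last k, c) := by
    intro h
    exact h0 (congrArg Prod.fst h)
  rw [pairTerm_pos _ _ ⟨h2, reach_all b c⟩]
  simp [wt]

/-! ### Orientations of the butterfly -/

section Oriented

variable {k : ℕ} {H : MixedGraph (Vt k)}

theorem step_cases (hH : IsOrientation (butterfly k) H) {u v : Vt k} (h : H.Step u v) :
    ∃ (l : Fin k) (b : Fin k → Bool), u = (l.castSucc, b) ∧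
      (v = (l.succ, b) ∨ v = (l.castSucc, flip l b)) := by
  obtain ⟨hE, O, hO, hA⟩ := hH
  rcases h with h | h
  · rw [hA, Multiset.mem_add] at h
    rcases h with h | h
    · obtain ⟨l, b, hlb⟩ := (mem_bArcs _).1 h
      have h1 := (Prod.ext_iff.1 hlb).1
      have h2 := (Prod.ext_iff.1 hlb).2
      exact ⟨l, b, h1.symm, Or.inl h2.symm⟩
    · have h1 : s(u, v) ∈ (butterfly k).edges := by
        rw [← hO]
        exact Multiset.mem_map.2 ⟨(u, v), h, rfl⟩
      obtain ⟨l, b, hlb⟩ := (mem_bEdges _).1 h1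
      rw [Sym2.eq_iff] at hlb
      rcases hlb with ⟨h1, h2⟩ | ⟨h1, h2⟩
      · exact ⟨l, b, h1.symm, Or.inr h2.symm⟩
      · refine ⟨l, flip l b, h2.symm, Or.inr ?_⟩
        rw [flip_flip]
        exact h1.symm
  · rw [hE] at h
    exact absurd h (Multiset.notMem_zero _)

theorem not_both (hH : IsOrientation (butterfly k) H) (l : Fin k) (b : Fin k → Bool)
    (h1 : H.Step (l.castSucc, b) (l.castSucc, flip l b))
    (h2 : H.Step (l.castSucc, flip l b) (l.castSucc, b)) : False := by
  obtain ⟨hE, O, hO, hA⟩ := hH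
  have hmem : ∀ (b c : Fin k → Bool), H.Step (l.castSucc, b) (l.castSucc, c) →
      (((l.castSucc, b) : Vt k), ((l.castSucc, c) : Vt k)) ∈ O := by
    intro b c h
    rcases h with h | h
    · rw [hA, Multiset.mem_add] at h
      rcases h with h | h
      · obtain ⟨l', b', hlb⟩ := (mem_bArcs _).1 h
        have e1 := congrArg (fun t : Vt k × Vt k => (t.1.1 : ℕ)) hlb
        have e2 := congrArg (fun t : Vt k × Vt k => (t.2.1 : ℕ)) hlb
        simp at e1 e2
        omega
      · exact h
    · rw [hE] at h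
      exact absurd h (Multiset.notMem_zero _)
  have m1 := hmem _ _ h1
  have m2 := hmem _ _ h2
  have hnd : (O.map (fun a => s(a.1, a.2))).Nodup := by
    rw [hO]
    exact (bEdges k).nodup
  have h3 := Multiset.inj_on_of_nodup_map hnd _ m1 _ m2 (Sym2.eq_swap)
  have h4 : b = flip l b := congrArg (fun t : Vt k × Vt k => t.1.2) h3
  exact flip_ne l b h4.symm

open Classical in
/-- the number of outputs reachable from the vertex `(i, b)` -/
noncomputable def r (H : MixedGraph (Vt k)) (i : Fin (k + 1)) (b : Fin k → Bool) : ℕ :=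
  (univ.filter (fun c : Fin k → Bool => H.Reach (i, b) (Fin.last k, c))).card

theorem no_step_last (hH : IsOrientation (butterfly k) H) (b : Fin k → Bool) (v : Vt k) :
    ¬ H.Step (Fin.last k, b) v := by
  intro h
  obtain ⟨l, b', h1, _⟩ := step_cases hH h
  have h2 := congrArg (fun t : Vt k => (t.1 : ℕ)) h1
  have h3 := l.isLt
  simp at h2
  omega

theorem reach_last (hH : IsOrientation (butterfly k) H) (b : Fin k → Bool) (v : Vt k)
    (h : H.Reach (Fin.last k, b) v) : v = (Fin.last k, b) := by
  rcases Relation.ReflTransGen.cases_head h with h1 | ⟨c, h1, _⟩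
  · exact h1.symm
  · exact absurd h1 (no_step_last hH b c)

theorem r_last (hH : IsOrientation (butterfly k) H) (b : Fin k → Bool) : r H (Fin.last k) b ≤ 1 := by
  classical
  unfold r
  refine le_trans (Finset.card_le_card (t := {b}) ?_) (le_of_eq (Finset.card_singleton b))
  intro c hc
  rw [Finset.mem_filter] at hc
  have := reach_last hH b _ hc.2
  rw [Finset.mem_singleton]
  exact congrArg Prod.snd this

open Classical in
theorem r_step (hH : IsOrientation (butterfly k) H) (l : Fin k) (b : Fin k → Bool) :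
    r H l.castSucc b ≤ r H l.succ b +
      if H.Step (l.castSucc, b) (l.castSucc, flip l b) then r H l.succ (flip l b) else 0 := by
  have hne : ∀ b c : Fin k → Bool, ((l.castSucc, b) : Vt k) ≠ (Fin.last k, c) := by
    intro b c h
    have h2 := congrArg (fun t : Vt k => (t.1 : ℕ)) h
    have h3 := l.isLt
    simp at h2
    omega
  have hinj : Function.Injective (fun j : Fin k => j.castSucc) := Fin.castSucc_injective k
  have key : ∀ c, H.Reach (l.castSucc, b) (Fin.last k, c) → H.Reach (l.succ, b) (Fin.last k, c) ∨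
      (H.Step (l.castSucc, b) (l.castSucc, flip l b) ∧ H.Reach (l.succ, flip l b) (Fin.last k, c)) := by
    intro c hc
    rcases Relation.ReflTransGen.cases_head hc with h1 | ⟨v, h1, h2⟩
    · exact absurd h1 (hne b c)
    · obtain ⟨l', b', e1, e2⟩ := step_cases hH h1
      have el : l' = l := hinj (congrArg Prod.fst e1).symm
      have eb : b' = b := (congrArg Prod.snd e1).symm
      subst el
      subst eb
      rcases e2 with e2 | e2
      · subst e2; exact Or.inl h2
      · subst e2
        right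
        refine ⟨h1, ?_⟩
        rcases Relation.ReflTransGen.cases_head h2 with h3 | ⟨v', h3, h4⟩
        · exact absurd h3 (hne _ c)
        · obtain ⟨l'', b'', f1, f2⟩ := step_cases hH h3
          have el : l'' = l' := hinj (congrArg Prod.fst f1).symm
          have eb : b'' = flip l' b' := (congrArg Prod.snd f1).symm
          subst el
          subst eb
          rcases f2 with f2 | f2
          · subst f2; exact h4
          · subst f2
            rw [flip_flip] at h3
            exact (not_both hH _ _ h1 h3).elim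
  by_cases hs : H.Step (l.castSucc, b) (l.castSucc, flip l b)
  · rw [if_pos hs]
    unfold r
    refine le_trans (Finset.card_le_card ?_) (Finset.card_union_le _ _)
    intro c hc
    rw [Finset.mem_filter] at hc
    rw [Finset.mem_union, Finset.mem_filter, Finset.mem_filter]
    rcases key c hc.2 with h | h
    · exact Or.inl ⟨mem_univ _, h⟩
    · exact Or.inr ⟨mem_univ _, h.2⟩
  · rw [if_neg hs, add_zero]
    unfold r
    apply Finset.card_le_card
    intro c hc
    rw [Finset.mem_filter] at hc ⊢
    rcases key c hc.2 with h | h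
    · exact ⟨mem_univ _, h⟩
    · exact absurd h.1 hs

/-- the transfer inequality for one pair -/
theorem pair_ineq {p q x y : ℕ} (h : (p ≤ x + y ∧ q ≤ y) ∨ (p ≤ x ∧ q ≤ x + y)) :
    3 * (p ^ 2 + q ^ 2) ≤ 8 * (x ^ 2 + y ^ 2) := by
  rcases h with ⟨h1, h2⟩ | ⟨h1, h2⟩
  · have h3 : p ^ 2 ≤ (x + y) ^ 2 := Nat.pow_le_pow_left h1 2
    have h4 : q ^ 2 ≤ y ^ 2 := Nat.pow_le_pow_left h2 2
    zify at h3 h4 ⊢
    nlinarith [sq_nonneg ((x : ℤ) - y), sq_nonneg (3 * (x : ℤ) - 2 * y), sq_nonneg ((5 : ℤ) * x - 3 * y)]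
  · have h3 : p ^ 2 ≤ x ^ 2 := Nat.pow_le_pow_left h1 2
    have h4 : q ^ 2 ≤ (x + y) ^ 2 := Nat.pow_le_pow_left h2 2
    zify at h3 h4 ⊢
    nlinarith [sq_nonneg ((x : ℤ) - y), sq_nonneg (3 * (y : ℤ) - 2 * x), sq_nonneg ((5 : ℤ) * y - 3 * x)]

/-- flipping as a permutation of the bit strings -/
def flipPerm (l : Fin k) : Equiv.Perm (Fin k → Bool) :=
  Function.Involutive.toPerm (flip l) (flip_flip l)

theorem level_ineq (hH : IsOrientation (butterfly k) H) (l : Fin k) :
    3 * ∑ b, (r H l.castSucc b) ^ 2 ≤ 8 * ∑ b, (r H l.succ b) ^ 2 := by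
  classical
  have h1 : ∀ b, 3 * ((r H l.castSucc b) ^ 2 + (r H l.castSucc (flip l b)) ^ 2) ≤
      8 * ((r H l.succ b) ^ 2 + (r H l.succ (flip l b)) ^ 2) := by
    intro b
    apply pair_ineq
    have e1 := r_step hH l b
    have e2 := r_step hH l (flip l b)
    rw [flip_flip] at e2
    by_cases hs : H.Step (l.castSucc, b) (l.castSucc, flip l b)
    · left
      have hs2 : ¬ H.Step (l.castSucc, flip l b) (l.castSucc, b) := fun h => not_both hH l b hs h
      rw [if_pos hs] at e1
      rw [if_neg hs2, add_zero] at e2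
      exact ⟨e1, e2⟩
    · right
      rw [if_neg hs, add_zero] at e1
      refine ⟨e1, ?_⟩
      split_ifs at e2 <;> omega
  have h2 := Finset.sum_le_sum (fun b (_ : b ∈ (univ : Finset (Fin k → Bool))) => h1 b)
  rw [← Finset.mul_sum, ← Finset.mul_sum, Finset.sum_add_distrib, Finset.sum_add_distrib] at h2
  have h3 : ∀ i, ∑ b, (r H i (flip l b)) ^ 2 = ∑ b, (r H i b) ^ 2 := fun i =>
    Equiv.sum_comp (flipPerm l) (fun b => (r H i b) ^ 2)
  rw [h3, h3] at h2
  omega

theorem sum_sq (hH : IsOrientation (butterfly k) H) (i : Fin (k + 1)) :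
    3 ^ (k - (i : ℕ)) * ∑ b, (r H i b) ^ 2 ≤ 8 ^ (k - (i : ℕ)) * 2 ^ k := by
  induction i using Fin.reverseInduction with
  | last =>
    simp only [Fin.val_last, Nat.sub_self, pow_zero, one_mul]
    calc ∑ b, (r H (Fin.last k) b) ^ 2 ≤ ∑ b : Fin k → Bool, 1 := by
          apply Finset.sum_le_sum
          intro b _
          have := r_last hH b
          calc (r H (Fin.last k) b) ^ 2 ≤ 1 ^ 2 := Nat.pow_le_pow_left this 2
            _ = 1 := by norm_num
      _ = 2 ^ k := by simp
  | cast l ih =>
    have hl := l.isLt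
    have e : k - ((l.castSucc : Fin (k + 1)) : ℕ) = (k - ((l.succ : Fin (k + 1)) : ℕ)) + 1 := by
      simp only [Fin.val_castSucc, Fin.val_succ]
      omega
    rw [e, pow_succ, pow_succ]
    set n := k - ((l.succ : Fin (k + 1)) : ℕ)
    calc 3 ^ n * 3 * ∑ b, (r H l.castSucc b) ^ 2 = 3 ^ n * (3 * ∑ b, (r H l.castSucc b) ^ 2) := by ring
      _ ≤ 3 ^ n * (8 * ∑ b, (r H l.succ b) ^ 2) := Nat.mul_le_mul_left _ (level_ineq hH l)
      _ = 8 * (3 ^ n * ∑ b, (r H l.succ b) ^ 2) := by ring
      _ ≤ 8 * (8 ^ n * 2 ^ k) := Nat.mul_le_mul_left _ ih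
      _ = 8 ^ n * 8 * 2 ^ k := by ring

theorem sum_r (hH : IsOrientation (butterfly k) H) : 3 ^ k * (∑ b, r H 0 b) ^ 2 ≤ 32 ^ k := by
  have h1 := sum_sq hH 0
  simp only [Fin.val_zero, Nat.sub_zero] at h1
  have h2 : (∑ b, r H 0 b) ^ 2 ≤ 2 ^ k * ∑ b, (r H 0 b) ^ 2 := by
    have := sq_sum_le_card_mul_sum_sq (s := (univ : Finset (Fin k → Bool))) (f := fun b => r H 0 b)
    simpa using this
  calc 3 ^ k * (∑ b, r H 0 b) ^ 2 ≤ 3 ^ k * (2 ^ k * ∑ b, (r H 0 b) ^ 2) := Nat.mul_le_mul_left _ h2
    _ = 2 ^ k * (3 ^ k * ∑ b, (r H 0 b) ^ 2) := by ring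
    _ ≤ 2 ^ k * (8 ^ k * 2 ^ k) := Nat.mul_le_mul_left _ h1
    _ = 32 ^ k := by
        rw [← mul_pow, ← mul_pow]
        norm_num

theorem reach_zero (hH : IsOrientation (butterfly k) H) (hk : 0 < k) (b : Fin k → Bool) (v : Vt k)
    (h : H.Reach (0, b) v) (hv : v.1 = 0) : v = (0, b) ∨ v = (0, flip ⟨0, hk⟩ b) := by
  induction h with
  | refl => exact Or.inl rfl
  | @tail x y hx hxy ih =>
    obtain ⟨l, b', h1, h2⟩ := step_cases hH hxy
    rcases h2 with h2 | h2
    · exfalso
      rw [h2] at hv
      exact Fin.succ_ne_zero l hv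
    · have h3 : l.castSucc = 0 := by rw [h2] at hv; exact hv
      have hl : l = ⟨0, hk⟩ := by
        apply Fin.ext
        have := congrArg Fin.val h3
        simpa using this
      have hx0 : x.1 = 0 := by rw [h1]; exact h3
      have hb' : x.2 = b' := by rw [h1]
      rcases ih hx0 with h4 | h4
      · right
        rw [h2, h3, hl]
        have : b' = b := by rw [← hb', h4]
        rw [this]
      · left
        rw [h2, h3, hl]
        have : b' = flip ⟨0, hk⟩ b := by rw [← hb', h4]
        rw [this, flip_flip]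

theorem R_upper (hH : IsOrientation (butterfly k) H) (hk : 0 < k) :
    R H (wt k) ≤ 2 ^ k + ∑ b, r H 0 b := by
  classical
  unfold R
  have h0 : ∑ v : Vt k, (wt k v).choose 2 = 0 := by
    apply Finset.sum_eq_zero
    intro v _
    unfold wt
    split_ifs <;> rfl
  rw [h0, mul_zero, zero_add, Fintype.sum_prod_type, Finset.sum_eq_single 0]
  · have h2 : (2 : ℕ) ^ k = ∑ b : Fin k → Bool, 1 := by simp
    rw [h2, ← Finset.sum_add_distrib]
    apply Finset.sum_le_sum
    intro b _
    set Z : Finset (Vt k) := insert (0, flip ⟨0, hk⟩ b)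
      ((univ.filter (fun c : Fin k → Bool => H.Reach (0, b) (Fin.last k, c))).image
        (fun c => ((Fin.last k, c) : Vt k))) with hZ
    have hcard : Z.card ≤ 1 + r H 0 b := by
      rw [hZ]
      refine (Finset.card_insert_le _ _).trans ?_
      have := Finset.card_image_le (s := univ.filter (fun c : Fin k → Bool =>
        H.Reach (0, b) (Fin.last k, c))) (f := fun c => ((Fin.last k, c) : Vt k))
      have e : r H 0 b = (univ.filter (fun c : Fin k → Bool => H.Reach (0, b) (Fin.last k, c))).card := by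
        unfold r
        congr
      omega
    refine le_trans ?_ hcard
    rw [Finset.card_eq_sum_ones, ← Finset.sum_filter_add_sum_filter_not univ (fun v => v ∈ Z)]
    have e1 : ∑ v with ¬ v ∈ Z, pairTerm H (wt k) (0, b) v = 0 := by
      apply Finset.sum_eq_zero
      intro v hv
      rw [Finset.mem_filter] at hv
      by_cases hc : ((0, b) : Vt k) ≠ v ∧ H.Reach (0, b) v
      · rw [pairTerm_pos _ _ hc]
        have hw : wt k v = 0 := by
          unfold wt
          rw [if_neg]
          rintro (h | h)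
          · rcases reach_zero hH hk b v hc.2 h with h1 | h1
            · exact hc.1 h1.symm
            · apply hv.2
              rw [hZ, h1]
              exact Finset.mem_insert_self _ _
          · apply hv.2
            have hvv : v = (Fin.last k, v.2) := Prod.ext h rfl
            rw [hZ, hvv]
            apply Finset.mem_insert_of_mem
            rw [Finset.mem_image]
            refine ⟨v.2, ?_, rfl⟩
            rw [Finset.mem_filter]
            refine ⟨mem_univ _, ?_⟩
            rw [← hvv]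
            exact hc.2
        rw [hw, mul_zero]
      · exact pairTerm_neg _ _ hc
    rw [e1, add_zero]
    have e2 : univ.filter (fun v => v ∈ Z) = Z := by ext v; simp
    rw [e2]
    apply Finset.sum_le_sum
    intro v _
    by_cases hc : ((0, b) : Vt k) ≠ v ∧ H.Reach (0, b) v
    · rw [pairTerm_pos _ _ hc]
      unfold wt
      split_ifs <;> simp
    · rw [pairTerm_neg _ _ hc]
      exact Nat.zero_le _
  · intro i _ hi
    apply Finset.sum_eq_zero
    intro b _
    apply Finset.sum_eq_zero
    intro v _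
    by_cases hc : ((i, b) : Vt k) ≠ v ∧ H.Reach (i, b) v
    · rw [pairTerm_pos _ _ hc]
      by_cases hl : i = Fin.last k
      · exfalso
        subst hl
        exact hc.1 (reach_last hH b v hc.2).symm
      · have : wt k (i, b) = 0 := by
          unfold wt
          rw [if_neg]
          rintro (h | h)
          · exact hi h
          · exact hl h
        rw [this, zero_mul]
    · exact pairTerm_neg _ _ hc
  · intro h
    exact absurd (mem_univ _) h

end Oriented

/-- No positive constant works: for every `α > 0` there are a finite mixed graph `G` and weights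
`w` such that every orientation `H` of `G` has `R(H, w) < α R(G, w)`. -/
theorem result : ∀ α : ℝ, 0 < α → ∃ (V : Type) (_ : Fintype V) (G : MixedGraph V) (w : V → ℕ),
    ∀ H : MixedGraph V, IsOrientation G H → (R H w : ℝ) < α * R G w := by
  intro α hα
  obtain ⟨j, hj⟩ := exists_pow_lt_of_lt_one (show (0:ℝ) < α / 2 by positivity) (show (2 / 3 : ℝ) < 1 by norm_num)
  set m := j + 1 with hm
  have hj' : (2 / 3 : ℝ) ^ m < α / 2 := by
    rw [hm, pow_succ]
    have : (0:ℝ) < (2 / 3) ^ j := by positivity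
    linarith
  refine ⟨Vt (2 * m), inferInstance, butterfly (2 * m), wt (2 * m), ?_⟩
  intro H hH
  have hk : 0 < 2 * m := by omega
  have h1 : (4:ℝ) ^ (2 * m) ≤ R (butterfly (2 * m)) (wt (2 * m)) := by exact_mod_cast R_lower hk
  have h2 : (R H (wt (2 * m)) : ℝ) ≤ 2 ^ (2 * m) + ((∑ b, r H 0 b : ℕ) : ℝ) := by
    exact_mod_cast R_upper hH hk
  have h3 := sum_r hH
  have h4 : 3 ^ m * (∑ b, r H 0 b) ≤ 32 ^ m := by
    rw [← Nat.pow_le_pow_iff_left (two_ne_zero)]
    calc (3 ^ m * ∑ b, r H 0 b) ^ 2 = 3 ^ (2 * m) * (∑ b, r H 0 b) ^ 2 := by ring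
      _ ≤ 32 ^ (2 * m) := h3
      _ = (32 ^ m) ^ 2 := by ring
  have h5 : (3:ℝ) ^ m * ((∑ b, r H 0 b : ℕ) : ℝ) ≤ 32 ^ m := by exact_mod_cast h4
  have h6 : ((∑ b, r H 0 b : ℕ) : ℝ) ≤ (2 / 3) ^ m * 16 ^ m := by
    have h7 : (32:ℝ) ^ m = 3 ^ m * ((2 / 3) ^ m * 16 ^ m) := by
      rw [← mul_pow, ← mul_pow]; norm_num
    rw [h7] at h5
    exact le_of_mul_le_mul_left h5 (by positivity)
  have h8 : (2:ℝ) ^ (2 * m) = 4 ^ m := by rw [pow_mul]; norm_num
  have h9 : (4:ℝ) ^ (2 * m) = 16 ^ m := by rw [pow_mul]; norm_num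
  have h10 : (4:ℝ) ^ m ≤ (2 / 3) ^ m * 16 ^ m := by
    rw [← mul_pow]
    exact pow_le_pow_left₀ (by norm_num) (by norm_num) m
  have h11 : (0:ℝ) < 16 ^ m := by positivity
  rw [h8] at h2
  rw [h9] at h1
  have h12 : (2 / 3 : ℝ) ^ m * 16 ^ m < α / 2 * 16 ^ m := mul_lt_mul_of_pos_right hj' h11
  have h13 : α * 16 ^ m ≤ α * R (butterfly (2 * m)) (wt (2 * m)) := mul_le_mul_of_nonneg_left h1 hα.le
  linarith

end Pool.Agent.Results.MP_408802_co.Butterfly
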